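import Pool.Agent.Results.MP_122e00_nt.PowerSavingShifts
import Pool.Agent.Q148.DS.A6

/-!
# Correlations of the divisor functions for all but `N ^ (1 - 2 / r + ε)` shifts

The definitions are those of the starting file `PowerSavingShifts`: `d r n` is `d_r(n)`, `D r x h` is the sum of
`d_r(n) d_r(n + h)` over `1 ≤ n ≤ x` (with `d_r(m) = 0` for `m ≤ 0`), `ram q h` the Ramanujan sum, `κ s q` the proportion of
the `s`-tuples of residues whose product is divisible by `q`, `𝔖 r h = ∑ κ_{r - 1}(q) ^ 2 c_q(h)`, `Density r P`: the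
polynomials `P q` are the densities of `d_r(n) e(b n / q)`, `G P h u v = ∑ c_q(h) P_q(u) P_q(v)`, `Asymp r N P T θ η h`: for
ALL `x ≤ N`, `D_r(x; h)` is the sum of `G_h(log n, log(n + h))` up to `N ^ (1 - θ)` and, if `|h| ≤ N ^ (1 - η)`, it is
`x T_h(log x)` up to `N ^ (1 - η / 8)`.
-/

set_option autoImplicit false

namespace Pool.Agent.Results.MP_122e00_nt.FewExceptionalShifts

open Finset Polynomial Pool.Agent.Results.MP_122e00_nt.PowerSavingShifts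

open Classical in
/-- **Divisor correlations with few exceptional shifts.** Let `r ≥ 3`. There are polynomials `P_q` (`q ≥ 1`) and `T_h`
(`h ≠ 0`) with the following properties.

(0) `P_q` is the density of `d_r(n) e(b n / q)`, `(b, q) = 1`, with a power saving; it has degree `r - 1`, leading
coefficient `κ_{r - 1}(q) / (r - 1)!`, and coefficients `O(q ^ (ε - 1))`. For `h ≠ 0` the series
`G_h(u, v) = ∑ c_q(h) P_q(u) P_q(v)` converges absolutely; `T_h(u) + T_h'(u) = G_h(u, u)`; `T_h` has degree `2 r - 2` and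
leading coefficient `𝔖_r(h) / ((r - 1)!) ^ 2`.

(1) For all `B` and `ε > 0` there is `θ > 0` such that for every `0 < η ≤ θ` and every large `N`: all integers `h ≠ 0` with
`|h| ≤ B N`, with at most `N ^ (1 - 2 / r + ε)` exceptions, satisfy for ALL `x ≤ N` the asymptotic formula
`D_r(x; h) = ∑ G_h(log n, log(n + h)) + O(N ^ (1 - θ))` (the sum over `n ≤ x` with `n + h ≥ 1`) and, if
`|h| ≤ N ^ (1 - η)`, `D_r(x; h) = x T_h(log x) + O(N ^ (1 - η / 8))`, with implied constants `1`. -/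
theorem result (r : ℕ) (hr : 3 ≤ r) : ∃ (P : ℕ → ℝ[X]) (T : ℤ → ℝ[X]),
    (Density r P ∧ (∀ q, 1 ≤ q → (P q).natDegree = r - 1 ∧ (P q).leadingCoeff = κ (r - 1) q / ((r - 1).factorial : ℝ)) ∧
      ∀ ε : ℝ, 0 < ε → ∃ C : ℝ, ∀ q i : ℕ, 1 ≤ q → |(P q).coeff i| ≤ C * (q : ℝ) ^ (ε - 1)) ∧
    (∀ h : ℤ, h ≠ 0 → (∀ u v : ℝ, Summable (fun q : ℕ => (ram (q + 1) h : ℝ) * ((P (q + 1)).eval u * (P (q + 1)).eval v))) ∧
      (∀ u : ℝ, (T h).eval u + (derivative (T h)).eval u = G P h u u) ∧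
      (T h).natDegree = 2 * r - 2 ∧ (T h).leadingCoeff = 𝔖 r h / ((r - 1).factorial : ℝ) ^ 2) ∧
    (∀ (B : ℕ) (ε : ℝ), 0 < ε → ∃ θ : ℝ, 0 < θ ∧ ∀ η : ℝ, 0 < η → η ≤ θ → ∃ N₀ : ℕ, ∀ N : ℕ, N₀ ≤ N →
      (((Icc (-((B * N : ℕ) : ℤ)) ((B * N : ℕ) : ℤ)).filter (fun h : ℤ => h ≠ 0 ∧ ¬ Asymp r N P T θ η h)).card : ℝ) ≤
        (N : ℝ) ^ (1 - 2 / (r : ℝ) + ε)) := by
  obtain ⟨t, rfl⟩ : ∃ t, r = t + 2 := ⟨r - 2, by omega⟩
  obtain ⟨P, hP, hlead, hdens⟩ := exists_P t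
  have e0 : t + 2 - 1 = t + 1 := by omega
  have e2 : 2 * (t + 2) - 2 = 2 * t + 2 := by omega
  refine ⟨P, Pool.Agent.TH212.PS.Th t P, ⟨hdens, ?_, ?_⟩, ?_, ?_⟩
  · intro q hq
    rw [e0]
    have hk := Pool.Agent.TH212.PS.kap_pos t q hq
    have hc := hlead q hq
    have hne : (P q).coeff (t + 1) ≠ 0 := by
      rw [hc]
      positivity
    have hd : (P q).natDegree = t + 1 := le_antisymm (hP.deg q) (le_natDegree_of_ne_zero hne)
    refine ⟨hd, ?_⟩
    unfold leadingCoeff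
    rw [hd, hc, κ_eq _ _ hq]
  · intro ε hε
    obtain ⟨C, _, h1⟩ := Pool.Agent.TH212.PS.coeff_bound t P hP ε hε
    exact ⟨C, fun q i hq => h1 q hq i⟩
  · intro h hh
    refine ⟨fun u v => ?_, fun u => ?_, ?_, ?_⟩
    · exact (summable_nat_add_iff 1).2 (Pool.Agent.TH212.PS.series_summable t P hP h hh u v)
    · rw [G_eq t P hP h hh]
      exact Pool.Agent.TH212.PS.Th_eq t P hP h hh u
    · rw [e2]
      exact (Pool.Agent.TH212.PS.Th_full t P hlead h hh).1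
    · rw [e0, 𝔖_eq t h hh]
      exact (Pool.Agent.TH212.PS.Th_full t P hlead h hh).2
  · intro B ε hε
    obtain ⟨θ, hθ, _, h1⟩ := Pool.Agent.Q148.DS.few_final t (by omega) P hP B ε hε
    refine ⟨θ, hθ, fun η hη hηθ => ?_⟩
    obtain ⟨N₀, h2⟩ := h1 η hη hηθ
    refine ⟨N₀, fun N hN => ?_⟩
    have h3 := h2 N hN
    have e3 : (((t + 2 : ℕ) : ℝ)) = (t : ℝ) + 2 := by push_cast; ring
    rw [e3]
    refine le_trans (Nat.cast_le.2 (card_le_card ?_)) h3
    intro h hh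
    rw [mem_filter] at hh ⊢
    exact ⟨hh.1, hh.2.1, fun hg => hh.2.2 (asymp_of t N P hP θ η h hh.2.1 hg)⟩

end Pool.Agent.Results.MP_122e00_nt.FewExceptionalShifts
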