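import Pool.Agent.Q197.PS.ST
import Pool.Agent.Q197.PS.DV

/-!
# Divisor correlations are decided by samples of `N ^ ε` integers

The asymptotic formula `∑_{n ≤ N} d_r(n) d_r(n + h) ∼ c₀ N (log N) ^ (2 r - 2)` holds if and only if, for a fixed
positive share `c` of the sets `A` of `m` integers `n ≤ N`, the mean value of `d_r(n) d_r(n + h)` over `A` is
`(c₀ + o(1)) (log N) ^ (2 r - 2)`; here one `m ≥ N ^ ε` for every `N` is enough, and then the same is true for all such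
`m` and almost all `A`.
-/

set_option autoImplicit false

open Finset Filter Topology

namespace Pool.Agent.Results.MP_122e00_nt.SamplesDecide

/-- `d_r(m)`, the number of ordered factorisations of `m` into `r` positive factors; zero for `m ≤ 0` -/
noncomputable def d (r : ℕ) (m : ℤ) : ℕ := ((ArithmeticFunction.zeta : ArithmeticFunction ℕ) ^ r) m.toNat

/-- `d_r(n) d_r(n + h)` -/
noncomputable def corr (r : ℕ) (h : ℤ) (n : ℕ) : ℝ := (d r n : ℝ) * (d r (n + h) : ℝ)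

/-- the sets of `m` positive integers up to `N` on which the mean value of `d_r(n) d_r(n + h)` differs from
`c₀ (log N) ^ (2 r - 2)` by at most `δ (log N) ^ (2 r - 2)` -/
noncomputable def good (r : ℕ) (h : ℤ) (c₀ δ : ℝ) (N m : ℕ) : Finset (Finset ℕ) := by
  classical
  exact ((Icc 1 N).powersetCard m).filter (fun A =>
    |(∑ n ∈ A, corr r h n) / m - c₀ * Real.log N ^ (2 * (r - 1))| ≤ δ * Real.log N ^ (2 * (r - 1)))

/-- the other sets of `m` positive integers up to `N` -/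
noncomputable def bad (r : ℕ) (h : ℤ) (c₀ δ : ℝ) (N m : ℕ) : Finset (Finset ℕ) := by
  classical
  exact ((Icc 1 N).powersetCard m).filter (fun A =>
    ¬ |(∑ n ∈ A, corr r h n) / m - c₀ * Real.log N ^ (2 * (r - 1))| ≤ δ * Real.log N ^ (2 * (r - 1)))

lemma iff_aux (r : ℕ) (h : ℤ) (c₀ δ : ℝ) (N m : ℕ) (hN : 0 < Real.log N) (A : Finset ℕ) :
    |(∑ n ∈ A, corr r h n / Real.log N ^ (2 * (r - 1))) / m - c₀| ≤ δ ↔
      |(∑ n ∈ A, corr r h n) / m - c₀ * Real.log N ^ (2 * (r - 1))| ≤ δ * Real.log N ^ (2 * (r - 1)) := by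
  have hl : 0 < Real.log N ^ (2 * (r - 1)) := by positivity
  rw [← sum_div]
  have e : (∑ n ∈ A, corr r h n) / m - c₀ * Real.log N ^ (2 * (r - 1)) =
      ((∑ n ∈ A, corr r h n) / Real.log N ^ (2 * (r - 1)) / m - c₀) * Real.log N ^ (2 * (r - 1)) := by
    field_simp
  rw [e, abs_mul, abs_of_pos hl]
  exact (mul_le_mul_iff_left₀ hl).symm

lemma good_eq (r : ℕ) (h : ℤ) (c₀ δ : ℝ) (N m : ℕ) (hN : 0 < Real.log N) :
    Q197.PS.goodS (Icc 1 N) (fun n => corr r h n / Real.log N ^ (2 * (r - 1))) c₀ δ m = good r h c₀ δ N m := by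
  classical
  unfold Q197.PS.goodS good
  ext A
  rw [mem_filter, mem_filter, iff_aux r h c₀ δ N m hN A]

lemma bad_eq (r : ℕ) (h : ℤ) (c₀ δ : ℝ) (N m : ℕ) (hN : 0 < Real.log N) :
    Q197.PS.badS (Icc 1 N) (fun n => corr r h n / Real.log N ^ (2 * (r - 1))) c₀ δ m = bad r h c₀ δ N m := by
  classical
  unfold Q197.PS.badS bad
  ext A
  rw [mem_filter, mem_filter, iff_aux r h c₀ δ N m hN A]

lemma corr_nonneg (r : ℕ) (h : ℤ) (n : ℕ) : 0 ≤ corr r h n := by
  unfold corr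
  positivity

/-- the correlations are small -/
lemma corr_small (r : ℕ) (h : ℤ) (ε : ℝ) (hε : 0 < ε) : ∃ C : ℝ, 0 < C ∧ ∀ N : ℕ, h.natAbs ≤ N →
    ∀ n ∈ Icc 1 N, corr r h n ≤ C * (N : ℝ) ^ (ε / 2) := by
  obtain ⟨C, hC, hd⟩ := Q197.PS.dr_small r (ε / 4) (by positivity)
  refine ⟨C * (C * 2 ^ (ε / 4)), by positivity, fun N hN n hn => ?_⟩
  rw [mem_Icc] at hn
  have hN1 : (1 : ℝ) ≤ N := by exact_mod_cast hn.1.trans hn.2
  have h1 : (d r n : ℝ) ≤ C * (N : ℝ) ^ (ε / 4) := by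
    have h2 := hd n (by omega)
    unfold d
    rw [Int.toNat_natCast]
    refine h2.trans ?_
    have : (n : ℝ) ≤ N := by exact_mod_cast hn.2
    gcongr
  have h2 : (d r (n + h) : ℝ) ≤ C * 2 ^ (ε / 4) * (N : ℝ) ^ (ε / 4) := by
    unfold d
    rcases Nat.eq_zero_or_pos ((n : ℤ) + h).toNat with h3 | h3
    · rw [h3, ArithmeticFunction.map_zero, Nat.cast_zero]
      positivity
    · refine (hd _ h3.ne').trans ?_
      have h4 : ((((n : ℤ) + h).toNat : ℕ) : ℝ) ≤ 2 * N := by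
        have h5 : ((n : ℤ) + h).toNat ≤ 2 * N := by omega
        exact_mod_cast h5
      calc C * ((((n : ℤ) + h).toNat : ℕ) : ℝ) ^ (ε / 4) ≤ C * (2 * (N : ℝ)) ^ (ε / 4) := by gcongr
        _ = _ := by
            rw [Real.mul_rpow (by norm_num) (by positivity)]
            ring
  unfold corr
  calc (d r n : ℝ) * (d r (n + h) : ℝ) ≤ (C * (N : ℝ) ^ (ε / 4)) * (C * 2 ^ (ε / 4) * (N : ℝ) ^ (ε / 4)) :=
        mul_le_mul h1 h2 (Nat.cast_nonneg _) (by positivity)
    _ = C * (C * 2 ^ (ε / 4)) * ((N : ℝ) ^ (ε / 4) * (N : ℝ) ^ (ε / 4)) := by ring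
    _ = C * (C * 2 ^ (ε / 4)) * (N : ℝ) ^ (ε / 2) := by
        rw [← Real.rpow_add (by linarith)]
        congr 2
        ring

/-- **Samples of `N ^ ε` integers decide.** Let `r ≥ 1`, `h` an integer, `c₀ > 0`, `0 < ε < 1` and `0 < c < 1`. The
following are equivalent: (1) `∑_{n ≤ N} d_r(n) d_r(n + h) ∼ c₀ N (log N) ^ (2 r - 2)`; (2) for every `δ > 0` and
all large `N` there is ONE `m` with `N ^ ε ≤ m ≤ N` such that at least the share `c` of the sets of `m` integers `n ≤ N`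
is good; (3) for every `δ > 0`, all large `N` and ALL `m` with `N ^ ε ≤ m ≤ N` at most the share `δ` of these sets is
not good. -/
theorem result (r : ℕ) (h : ℤ) (c₀ : ℝ) (hc₀ : 0 < c₀) (ε : ℝ) (hε : 0 < ε) (hε1 : ε < 1)
    (c : ℝ) (hc : 0 < c) (hc1 : c < 1) :
    (Tendsto (fun N : ℕ => (∑ n ∈ Icc 1 N, (d r n : ℝ) * (d r (n + h) : ℝ)) /
        (N * Real.log N ^ (2 * (r - 1)))) atTop (𝓝 c₀) ↔
      (∀ δ : ℝ, 0 < δ → ∃ N₀ : ℕ, ∀ N : ℕ, N₀ ≤ N → ∃ m : ℕ, (N : ℝ) ^ ε ≤ m ∧ m ≤ N ∧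
        c * (N.choose m : ℝ) ≤ (good r h c₀ δ N m).card)) ∧
    (Tendsto (fun N : ℕ => (∑ n ∈ Icc 1 N, (d r n : ℝ) * (d r (n + h) : ℝ)) /
        (N * Real.log N ^ (2 * (r - 1)))) atTop (𝓝 c₀) ↔
      (∀ δ : ℝ, 0 < δ → ∃ N₀ : ℕ, ∀ N : ℕ, N₀ ≤ N → ∀ m : ℕ, (N : ℝ) ^ ε ≤ m → m ≤ N →
        ((bad r h c₀ δ N m).card : ℝ) ≤ δ * (N.choose m : ℝ))) := by
  obtain ⟨C, hC, hsm⟩ := corr_small r h ε hε
  have hlog := (Real.tendsto_log_atTop.comp tendsto_natCast_atTop_atTop).eventually_ge_atTop (1 : ℝ)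
  have hN1 : ∀ᶠ N : ℕ in atTop, 1 ≤ N := eventually_ge_atTop 1
  have key := Q197.PS.samples_decide (l := atTop) (fun N : ℕ => Icc 1 N)
    (fun N n => corr r h n / Real.log N ^ (2 * (r - 1))) (fun N => C * (N : ℝ) ^ (ε / 2)) (fun N => (N : ℝ) ^ ε)
    hc₀ hc hc1 (by
      filter_upwards [hlog, eventually_ge_atTop h.natAbs] with N h1 h2 n hn
      simp only [Function.comp] at h1
      have h3 : 1 ≤ Real.log N ^ (2 * (r - 1)) := one_le_pow₀ h1
      refine ⟨div_nonneg (corr_nonneg r h n) (by linarith), ?_⟩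
      exact (div_le_self (corr_nonneg r h n) h3).trans (hsm N h2 n hn)) (by
      filter_upwards [hN1] with N h1
      have h2 : (1 : ℝ) ≤ N := by exact_mod_cast h1
      refine ⟨by positivity, ?_⟩
      rw [Nat.card_Icc, Nat.add_sub_cancel]
      calc (N : ℝ) ^ ε ≤ (N : ℝ) ^ (1 : ℝ) := Real.rpow_le_rpow_of_exponent_le h2 hε1.le
        _ = N := Real.rpow_one _) (by
      have h1 := (tendsto_rpow_neg_atTop (half_pos hε)).comp (tendsto_natCast_atTop_atTop (R := ℝ))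
      have h2 := h1.const_mul C
      rw [mul_zero] at h2
      refine h2.congr' ?_
      filter_upwards [hN1] with N h3
      have h4 : (0 : ℝ) < N := by exact_mod_cast h3
      simp only [Function.comp]
      rw [mul_div_assoc, ← Real.rpow_sub h4]
      congr 2
      ring)
  have hT : (Tendsto (fun N : ℕ => (∑ n ∈ Icc 1 N, corr r h n / Real.log N ^ (2 * (r - 1))) / (Icc 1 N).card)
      atTop (𝓝 c₀) ↔ Tendsto (fun N : ℕ => (∑ n ∈ Icc 1 N, (d r n : ℝ) * (d r (n + h) : ℝ)) /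
        (N * Real.log N ^ (2 * (r - 1)))) atTop (𝓝 c₀)) := by
    have e : (fun N : ℕ => (∑ n ∈ Icc 1 N, corr r h n / Real.log N ^ (2 * (r - 1))) / (Icc 1 N).card) =
        (fun N : ℕ => (∑ n ∈ Icc 1 N, (d r n : ℝ) * (d r (n + h) : ℝ)) /
        (N * Real.log N ^ (2 * (r - 1)))) := by
      funext N
      rw [← sum_div, Nat.card_Icc, Nat.add_sub_cancel, div_div, mul_comm (Real.log N ^ (2 * (r - 1)))]
      rfl
    rw [e]
  obtain ⟨k1, k2⟩ := key
  rw [hT] at k1 k2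
  constructor
  · rw [k1]
    refine forall_congr' fun δ => forall_congr' fun hδ => ?_
    constructor
    · intro h1
      obtain ⟨N₀, h2⟩ := eventually_atTop.1 (h1.and hlog)
      refine ⟨N₀, fun N hN => ?_⟩
      obtain ⟨⟨m, h3, h4, h5⟩, h6⟩ := h2 N hN
      simp only [Function.comp] at h6
      rw [Nat.card_Icc, Nat.add_sub_cancel, good_eq r h c₀ δ N m (by linarith)] at h5
      rw [Nat.card_Icc, Nat.add_sub_cancel] at h4
      exact ⟨m, h3, h4, h5⟩
    · rintro ⟨N₀, h1⟩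
      filter_upwards [eventually_ge_atTop N₀, hlog] with N h2 h6
      simp only [Function.comp] at h6
      obtain ⟨m, h3, h4, h5⟩ := h1 N h2
      rw [Nat.card_Icc, Nat.add_sub_cancel]
      refine ⟨m, h3, h4, ?_⟩
      rw [good_eq r h c₀ δ N m (by linarith)]
      exact h5
  · rw [k2]
    refine forall_congr' fun δ => forall_congr' fun hδ => ?_
    constructor
    · intro h1
      obtain ⟨N₀, h2⟩ := eventually_atTop.1 (h1.and hlog)
      refine ⟨N₀, fun N hN m h3 h4 => ?_⟩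
      obtain ⟨h5, h6⟩ := h2 N hN
      simp only [Function.comp] at h6
      have h7 := h5 m h3 (by rw [Nat.card_Icc, Nat.add_sub_cancel]; exact h4)
      rwa [Nat.card_Icc, Nat.add_sub_cancel, bad_eq r h c₀ δ N m (by linarith)] at h7
    · rintro ⟨N₀, h1⟩
      filter_upwards [eventually_ge_atTop N₀, hlog] with N h2 h6 m h3 h4
      simp only [Function.comp] at h6
      rw [Nat.card_Icc, Nat.add_sub_cancel] at h4
      rw [Nat.card_Icc, Nat.add_sub_cancel, bad_eq r h c₀ δ N m (by linarith)]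
      exact h1 N h2 m h3 h4

end Pool.Agent.Results.MP_122e00_nt.SamplesDecide
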