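import Pool.Agent.Q138.PS.XL
import Pool.Agent.Q138.PS.XQ
import Pool.Agent.Results.MP_122e00_nt.FewExceptionalShifts

/-!
# Correlations of divisor functions for ALL shifts near the powers of a real number

Let `r ≥ 3`. For almost every real `α > 1`, for all `κ < r / (r - 2)`, all positive algebraic numbers `c`, all integers `j` and all
large `n`: for EVERY integer `h ≠ 0` near `± c n ^ j α ^ n` the sum `D_r(x; h)` of `d_r(n) d_r(n + h)` over `n ≤ x` satisfies the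
expected asymptotic formula with a power saving for ALL `x` with `|h| ≤ x ≤ |h| ^ κ`. For windows of length
`(c n ^ j α ^ n) ^ l` the exceptional `α` form a set of Hausdorff dimension at most `κ (1 - 2 / r) / (1 - l)`.
-/

set_option autoImplicit false

namespace Pool.Agent.Results.MP_122e00_nt.ShiftsNearPowers

open Filter Topology MeasureTheory Polynomial Finset
open Pool.Agent.Q138.PS
open PowerSavingShifts (D main Asymp Density κ ram G 𝔖)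

/-- for ALL natural numbers `x` with `|h| ≤ x ≤ |h| ^ K`: `D_r(x; h)` is the main term up to `x ^ (1 - θ)` and, if
`|h| ≤ x ^ (1 - η)`, it is `x T_h(log x)` up to `x ^ (1 - θ)` -/
def Formula (r : ℕ) (P : ℕ → ℝ[X]) (T : ℤ → ℝ[X]) (K η θ : ℝ) (h : ℤ) : Prop :=
  ∀ x : ℕ, |(h : ℝ)| ≤ x → (x : ℝ) ≤ |(h : ℝ)| ^ K →
    |D r x h - main P x h| ≤ (x : ℝ) ^ (1 - θ) ∧
      (|(h : ℝ)| ≤ (x : ℝ) ^ (1 - η) → |D r x h - x * (T h).eval (Real.log x)| ≤ (x : ℝ) ^ (1 - θ))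

/-- for all `η > 0` there is `θ > 0` such that for all positive algebraic numbers `c`, all integers `j`, all `A` and all large
`n`: `Formula` holds for EVERY integer `h ≠ 0` with `| |h| - c n ^ j α ^ n| ≤ A (c n ^ j α ^ n) ^ l` -/
def AllShifts (r : ℕ) (P : ℕ → ℝ[X]) (T : ℤ → ℝ[X]) (K l α : ℝ) : Prop :=
  ∀ η : ℝ, 0 < η → ∃ θ : ℝ, 0 < θ ∧ ∀ c : ℝ, 0 < c → IsAlgebraic ℚ c → ∀ (j : ℤ) (A : ℝ), ∀ᶠ n : ℕ in atTop,
    ∀ h : ℤ, h ≠ 0 → |(|(h : ℝ)| - c * (n : ℝ) ^ j * α ^ n)| ≤ A * (c * (n : ℝ) ^ j * α ^ n) ^ l → Formula r P T K η θ h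

theorem one_le_abs' {t : ℤ} (ht0 : t ≠ 0) : (1 : ℝ) ≤ |(t : ℝ)| := by
  have h6 : (1 : ℤ) ≤ |t| := Int.one_le_abs ht0
  have h7 : ((1 : ℤ) : ℝ) ≤ ((|t| : ℤ) : ℝ) := by exact_mod_cast h6
  rw [Int.cast_abs] at h7
  simpa using h7

theorem two_mul_rpow {x N s t : ℝ} (hx : 1 ≤ x) (hN : x ≤ N) (hN2 : N ≤ 2 * x) (hs0 : 0 ≤ s) (hs : s ≤ 1)
    (h2 : 2 ≤ x ^ t) : N ^ s ≤ x ^ (s + t) := by
  have hx0 : 0 < x := by linarith
  have h3 : N ^ s ≤ (2 * x) ^ s := Real.rpow_le_rpow (by linarith) hN2 hs0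
  rw [Real.mul_rpow (by norm_num) hx0.le] at h3
  have h4 : (2 : ℝ) ^ s ≤ 2 := by
    calc (2 : ℝ) ^ s ≤ (2 : ℝ) ^ (1 : ℝ) := Real.rpow_le_rpow_of_exponent_le one_le_two hs
      _ = 2 := Real.rpow_one 2
  rw [Real.rpow_add hx0]
  have h5 : 0 ≤ x ^ s := by positivity
  nlinarith [h3, h4, h2, h5]

open Classical in
theorem few (r : ℕ) (hr : 3 ≤ r) (P : ℕ → ℝ[X]) (T : ℤ → ℝ[X])
    (hE : ∀ (B : ℕ) (ε : ℝ), 0 < ε → ∃ θ : ℝ, 0 < θ ∧ ∀ η : ℝ, 0 < η → η ≤ θ → ∃ N₀ : ℕ, ∀ N : ℕ, N₀ ≤ N →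
      (((Icc (-((B * N : ℕ) : ℤ)) ((B * N : ℕ) : ℤ)).filter (fun h : ℤ => h ≠ 0 ∧ ¬ Asymp r N P T θ η h)).card : ℝ) ≤
        (N : ℝ) ^ (1 - 2 / (r : ℝ) + ε)) (K η : ℝ) (hK : 0 < K) (hη : 0 < η) (e : ℝ) (he : 0 < e) :
    ∃ θ : ℝ, 0 < θ ∧ ∃ C : ℝ, ∀ Y : ℝ, 1 ≤ Y →
      (({m | m ∈ {m : ℕ | 1 ≤ m ∧ (¬ Formula r P T K η θ m ∨ ¬ Formula r P T K η θ (-(m : ℤ)))} ∧ (m : ℝ) ≤ Y}).ncard : ℝ) ≤
        C * Y ^ (K * (1 - 2 / (r : ℝ)) + e) := by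
  classical
  have hr0 : (0 : ℝ) ≤ 1 - 2 / (r : ℝ) := by
    have : (3 : ℝ) ≤ r := by exact_mod_cast hr
    rw [sub_nonneg, div_le_one (by linarith)]
    linarith
  obtain ⟨θ₀, hθ₀, h1⟩ := hE 1 (e / (2 * K)) (by positivity)
  set η' : ℝ := min (min θ₀ η) 1 with hη'
  have hη'0 : 0 < η' := lt_min (lt_min hθ₀ hη) one_pos
  have hη'1 : η' ≤ 1 := min_le_right _ _
  have hη'θ : η' ≤ θ₀ := (min_le_left _ _).trans (min_le_left _ _)
  have hη'η : η' ≤ η := (min_le_left _ _).trans (min_le_right _ _)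
  obtain ⟨N₀, h2⟩ := h1 η' hη'0 hη'θ
  have hlim : Tendsto (fun x : ℕ => (x : ℝ) ^ (η' / 16)) atTop atTop :=
    (tendsto_rpow_atTop (by positivity)).comp tendsto_natCast_atTop_atTop
  obtain ⟨x₀, hx₀⟩ := eventually_atTop.1 (hlim.eventually_ge_atTop 2)
  set i₀ : ℕ := N₀ + 2 * x₀ + 1 with hi₀
  have hpow : ∀ i, i₀ ≤ i → N₀ ≤ 2 ^ i ∧ 2 * x₀ < 2 ^ i := by
    intro i hi
    have := Nat.lt_two_pow_self (n := i)
    omega
  set X : ℕ → Finset ℤ := fun i => (Icc (-((1 * 2 ^ i : ℕ) : ℤ)) ((1 * 2 ^ i : ℕ) : ℤ)).filter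
    (fun h : ℤ => h ≠ 0 ∧ ¬ Asymp r (2 ^ i) P T θ₀ η' h) with hX
  have hXc : ∀ i, i₀ ≤ i → ((X i).card : ℝ) ≤ ((2 : ℝ) ^ i) ^ (1 - 2 / (r : ℝ) + e / (2 * K)) := by
    intro i hi
    have := h2 (2 ^ i) (hpow i hi).1
    push_cast at this ⊢
    exact_mod_cast this
  obtain ⟨C, hC⟩ := scales_union K (1 - 2 / (r : ℝ) + e / (2 * K)) hK (by positivity) i₀ X hXc (e / 2) (by positivity)
  have key : ∀ (m : ℕ) (h : ℤ), 1 ≤ m → |h| = (m : ℤ) → ¬ Formula r P T K η (η' / 16) h → 2 ^ i₀ < m →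
      ∃ i, i₀ ≤ i ∧ (2 : ℝ) ^ i ≤ 2 * (m : ℝ) ^ K ∧ h ∈ X i := by
    intro m h hm1 hhm hF hmi
    unfold Formula at hF
    push Not at hF
    obtain ⟨x, hx1, hx2, hx3⟩ := hF
    have hhr : |(h : ℝ)| = m := by
      have : ((|h| : ℤ) : ℝ) = ((m : ℤ) : ℝ) := by rw [hhm]
      rw [Int.cast_abs] at this
      simpa using this
    rw [hhr] at hx1 hx2
    have hmx : m ≤ x := by exact_mod_cast hx1
    have hx1' : 1 < x := by
      have := Nat.one_le_two_pow (n := i₀)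
      omega
    set i : ℕ := Nat.clog 2 x with hi
    have hi1 : x ≤ 2 ^ i := Nat.le_pow_clog (by norm_num) x
    have hi2 : 2 ^ i < 2 * x := by
      have h3 : 2 ^ (i - 1) < x := Nat.pow_pred_clog_lt_self (by norm_num) hx1'
      have h4 : 1 ≤ i := Nat.clog_pos (by norm_num) (by omega)
      have h5 : 2 ^ i = 2 * 2 ^ (i - 1) := by
        rw [← pow_succ']
        congr 1
        omega
      omega
    have hii : i₀ ≤ i := by
      by_contra hcon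
      have h6 : 2 ^ i ≤ 2 ^ i₀ := Nat.pow_le_pow_right (by norm_num) (by omega)
      omega
    have hxr : (1 : ℝ) ≤ x := by exact_mod_cast hx1'.le
    have hi1r : (x : ℝ) ≤ 2 ^ i := by exact_mod_cast hi1
    have hi2r : (2 : ℝ) ^ i ≤ 2 * x := by exact_mod_cast hi2.le
    refine ⟨i, hii, hi2r.trans (by linarith), ?_⟩
    have hxx₀ : x₀ ≤ x := by have := (hpow i hii).2; omega
    have h2x := hx₀ x hxx₀
    rw [hX]
    simp only [mem_filter, mem_Icc, one_mul]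
    refine ⟨?_, ?_, ?_⟩
    · rw [← abs_le, hhm]
      exact_mod_cast hmx.trans hi1
    · rintro rfl
      rw [abs_zero] at hhm
      omega
    · intro hA
      obtain ⟨g1, g2⟩ := hA x (by exact_mod_cast hi1)
      rw [Nat.cast_pow, Nat.cast_ofNat] at g1 g2
      have g3 : |D r x h - main P x h| ≤ (x : ℝ) ^ (1 - η' / 16) := by
        refine g1.trans ?_
        have h7 : ((2 : ℝ) ^ i) ^ (1 - θ₀) ≤ ((2 : ℝ) ^ i) ^ (1 - η') :=
          Real.rpow_le_rpow_of_exponent_le (one_le_pow₀ one_le_two) (by linarith)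
        refine h7.trans ((two_mul_rpow hxr hi1r hi2r (by linarith) (by linarith) h2x).trans ?_)
        exact Real.rpow_le_rpow_of_exponent_le hxr (by linarith)
      obtain ⟨h8, h9⟩ := hx3 g3
      rw [hhr] at h8
      refine absurd (g2 ?_) (not_le.2 (lt_of_le_of_lt ?_ h9))
      · have h10 : (x : ℝ) ^ (1 - η) ≤ ((2 : ℝ) ^ i) ^ (1 - η') :=
          (Real.rpow_le_rpow_of_exponent_le hxr (by linarith)).trans (Real.rpow_le_rpow (by positivity) hi1r (by linarith))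
        rw [hhr]
        exact h8.trans h10
      · refine (two_mul_rpow hxr hi1r hi2r (by linarith) (by linarith) h2x).trans ?_
        exact Real.rpow_le_rpow_of_exponent_le hxr (by linarith)
  refine ⟨η' / 16, by positivity, |C| + 2 ^ i₀ + 1, fun Y hY => ?_⟩
  have hY0 : 0 < Y := by linarith
  have hexp : K * (1 - 2 / (r : ℝ) + e / (2 * K)) + e / 2 = K * (1 - 2 / (r : ℝ)) + e := by
    field_simp
    ring
  set S : Set ℕ := {m : ℕ | (∃ i, i₀ ≤ i ∧ (2 : ℝ) ^ i ≤ 2 * (m : ℝ) ^ K ∧ ((m : ℤ) ∈ X i ∨ -(m : ℤ) ∈ X i)) ∧ (m : ℝ) ≤ Y} with hS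
  have hSfin : S.Finite := (Set.finite_Iic ⌊Y⌋₊).subset fun m hm => Nat.le_floor hm.2
  have hsub : {m | m ∈ {m : ℕ | 1 ≤ m ∧ (¬ Formula r P T K η (η' / 16) m ∨ ¬ Formula r P T K η (η' / 16) (-(m : ℤ)))} ∧
      (m : ℝ) ≤ Y} ⊆ S ∪ ((Finset.range (2 ^ i₀ + 1) : Finset ℕ) : Set ℕ) := by
    rintro m ⟨⟨hm1, hm2⟩, hmY⟩
    rcases le_or_gt m (2 ^ i₀) with h3 | h3
    · right
      rw [Finset.mem_coe, Finset.mem_range]
      omega
    · left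
      refine ⟨?_, hmY⟩
      rcases hm2 with h | h
      · obtain ⟨i, h4, h5, h6⟩ := key m m hm1 (by simp) h h3
        exact ⟨i, h4, h5, Or.inl h6⟩
      · obtain ⟨i, h4, h5, h6⟩ := key m (-(m : ℤ)) hm1 (by simp) h h3
        exact ⟨i, h4, h5, Or.inr h6⟩
  have h3 := (Set.ncard_le_ncard hsub (hSfin.union (Finset.finite_toSet _))).trans (Set.ncard_union_le _ _)
  rw [Set.ncard_coe_finset, Finset.card_range] at h3
  have h4 : (({m | m ∈ {m : ℕ | 1 ≤ m ∧ (¬ Formula r P T K η (η' / 16) m ∨ ¬ Formula r P T K η (η' / 16) (-(m : ℤ)))} ∧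
      (m : ℝ) ≤ Y}).ncard : ℝ) ≤ (S.ncard : ℝ) + (2 ^ i₀ + 1) := by exact_mod_cast h3
  have h5 := hC Y hY
  rw [hexp] at h5
  have h6 : (1 : ℝ) ≤ Y ^ (K * (1 - 2 / (r : ℝ)) + e) := Real.one_le_rpow hY (by positivity)
  have h7 : C * Y ^ (K * (1 - 2 / (r : ℝ)) + e) ≤ |C| * Y ^ (K * (1 - 2 / (r : ℝ)) + e) :=
    mul_le_mul_of_nonneg_right (le_abs_self C) (by positivity)
  have h8 : (0 : ℝ) < 2 ^ i₀ := by positivity
  nlinarith

open Classical in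
theorem part1 (r : ℕ) (hr : 3 ≤ r) (P : ℕ → ℝ[X]) (T : ℤ → ℝ[X])
    (hE : ∀ (B : ℕ) (ε : ℝ), 0 < ε → ∃ θ : ℝ, 0 < θ ∧ ∀ η : ℝ, 0 < η → η ≤ θ → ∃ N₀ : ℕ, ∀ N : ℕ, N₀ ≤ N →
      (((Icc (-((B * N : ℕ) : ℤ)) ((B * N : ℕ) : ℤ)).filter (fun h : ℤ => h ≠ 0 ∧ ¬ Asymp r N P T θ η h)).card : ℝ) ≤
        (N : ℝ) ^ (1 - 2 / (r : ℝ) + ε)) (K l : ℝ) (hK : 0 < K) (hl : l < 1) :
    ∃ E : Set ℝ, dimH E ≤ ENNReal.ofReal (K * (1 - 2 / (r : ℝ)) / (1 - l)) ∧ ∀ α : ℝ, 1 < α → α ∉ E → AllShifts r P T K l α := by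
  have hr0 : (0 : ℝ) ≤ 1 - 2 / (r : ℝ) := by
    have : (3 : ℝ) ≤ r := by exact_mod_cast hr
    rw [sub_nonneg, div_le_one (by linarith)]
    linarith
  have h0 : ∀ (q : {q : ℚ // 0 < q}) (k : ℕ), ∃ θ : ℝ, 0 < θ ∧ ∃ C : ℝ, ∀ Y : ℝ, 1 ≤ Y →
      (({m | m ∈ {m : ℕ | 1 ≤ m ∧ (¬ Formula r P T K q.1 θ m ∨ ¬ Formula r P T K q.1 θ (-(m : ℤ)))} ∧ (m : ℝ) ≤ Y}).ncard : ℝ) ≤
        C * Y ^ (K * (1 - 2 / (r : ℝ)) + 1 / ((k : ℝ) + 1)) := fun q k =>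
    few r hr P T hE K q.1 hK (by exact_mod_cast q.2) _ (by positivity)
  choose θ hθ hC using h0
  obtain ⟨E, hE1, hE2⟩ := pow_alg_inf (ι := {q : ℚ // 0 < q})
    (fun q k => {m : ℕ | 1 ≤ m ∧ (¬ Formula r P T K q.1 (θ q k) m ∨ ¬ Formula r P T K q.1 (θ q k) (-(m : ℤ)))})
    (K * (1 - 2 / (r : ℝ))) l (by positivity) hl (fun q k => hC q k)
  refine ⟨E, hE1, fun α hα hαE η hη => ?_⟩
  obtain ⟨q, hq1, hq2⟩ := exists_rat_btwn hη
  obtain ⟨k, hk⟩ := hE2 α hα hαE ⟨q, by exact_mod_cast hq1⟩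
  refine ⟨θ ⟨q, by exact_mod_cast hq1⟩ k, hθ _ _, fun c hc hca j A => ?_⟩
  filter_upwards [hk c hc hca j A] with n hn h hh h1
  have h2 : ((h.natAbs : ℕ) : ℝ) = |(h : ℝ)| := by
    rw [Nat.cast_natAbs, Int.cast_abs]
  have h3 := hn h.natAbs (by unfold NearPow; rw [h2]; exact h1)
  simp only [not_and] at h3
  have h4 := h3 (by omega)
  push Not at h4
  have h5 : Formula r P T K q (θ ⟨q, by exact_mod_cast hq1⟩ k) h := by
    rcases le_or_gt 0 h with h6 | h6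
    · have := h4.1
      rwa [Int.natAbs_of_nonneg h6] at this
    · have := h4.2
      rwa [Int.ofNat_natAbs_of_nonpos h6.le, neg_neg] at this
  intro x hx1 hx2
  obtain ⟨g1, g2⟩ := h5 x hx1 hx2
  refine ⟨g1, fun h7 => g2 (h7.trans ?_)⟩
  have hx3 : (1 : ℝ) ≤ x := (one_le_abs' hh).trans hx1
  exact Real.rpow_le_rpow_of_exponent_le hx3 (by linarith)

/-- **Theorem.** -/
theorem result (r : ℕ) (hr : 3 ≤ r) : ∃ (P : ℕ → ℝ[X]) (T : ℤ → ℝ[X]),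
    (Density r P ∧ (∀ q, 1 ≤ q → (P q).natDegree = r - 1 ∧ (P q).leadingCoeff = κ (r - 1) q / ((r - 1).factorial : ℝ))) ∧
    (∀ h : ℤ, h ≠ 0 → (∀ u v : ℝ, Summable (fun q : ℕ => (ram (q + 1) h : ℝ) * ((P (q + 1)).eval u * (P (q + 1)).eval v))) ∧
      (∀ u : ℝ, (T h).eval u + (derivative (T h)).eval u = G P h u u) ∧
      (T h).natDegree = 2 * r - 2 ∧ (T h).leadingCoeff = 𝔖 r h / ((r - 1).factorial : ℝ) ^ 2) ∧
    (∀ K l : ℝ, 0 < K → l < 1 → ∃ E : Set ℝ, dimH E ≤ ENNReal.ofReal (K * (1 - 2 / (r : ℝ)) / (1 - l)) ∧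
      ∀ α : ℝ, 1 < α → α ∉ E → AllShifts r P T K l α) ∧
    (∀ᵐ α : ℝ, 1 < α → ∀ K l : ℝ, 0 < K → K * (1 - 2 / (r : ℝ)) + l < 1 → AllShifts r P T K l α) := by
  obtain ⟨P, T, ⟨a1, a2, -⟩, a3, hE⟩ := FewExceptionalShifts.result r hr
  refine ⟨P, T, ⟨a1, a2⟩, a3, part1 r hr P T hE, ?_⟩
  have hr1 : (0 : ℝ) ≤ 1 - 2 / (r : ℝ) := by
    have : (3 : ℝ) ≤ r := by exact_mod_cast hr
    rw [sub_nonneg, div_le_one (by linarith)]
    linarith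
  have hr2 : 1 - 2 / (r : ℝ) ≤ 1 := by
    have : (0 : ℝ) ≤ 2 / (r : ℝ) := by positivity
    linarith
  have h1 : ∀ q : {q : ℚ × ℚ // (0 : ℝ) < q.1 ∧ (q.1 : ℝ) * (1 - 2 / (r : ℝ)) + q.2 < 1}, ∀ᵐ α : ℝ, 1 < α →
      AllShifts r P T q.1.1 q.1.2 α := by
    rintro ⟨⟨K, l⟩, hK, hl⟩
    simp only at hK hl ⊢
    have h4 : 0 ≤ (K : ℝ) * (1 - 2 / (r : ℝ)) := by positivity
    obtain ⟨E, hE1, hg⟩ := part1 r hr P T hE K l hK (by linarith)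
    have hnull : volume E = 0 := null_of_dim (by
      rw [div_lt_one (by linarith)]
      linarith) hE1
    have hae : ∀ᵐ α : ℝ, α ∉ E := measure_eq_zero_iff_ae_notMem.1 hnull
    filter_upwards [hae] with α h2 h3
    exact hg α h3 h2
  filter_upwards [ae_all_iff.2 h1] with α h2 hα K l hK hl η hη
  set d : ℝ := 1 - (K * (1 - 2 / (r : ℝ)) + l) with hd
  have hd0 : 0 < d := by linarith
  obtain ⟨K', h3, h4⟩ := exists_rat_btwn (show K < d / 4 + K by linarith)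
  obtain ⟨l', h5, h6⟩ := exists_rat_btwn (show l < d / 4 + l by linarith)
  obtain ⟨θ, hθ, h7⟩ := h2 ⟨(K', l'), by simp only; linarith, by simp only; nlinarith⟩ hα η hη
  refine ⟨θ, hθ, fun c hc hca j A => ?_⟩
  filter_upwards [h7 c hc hca j |A|, (grow hα hc j).eventually_ge_atTop 1] with n h8 h9 h hh h10 x hx1 hx2
  refine h8 h hh (h10.trans ?_) x hx1 (hx2.trans (Real.rpow_le_rpow_of_exponent_le (one_le_abs' hh) h3.le))
  have h11 : (c * (n : ℝ) ^ j * α ^ n) ^ l ≤ (c * (n : ℝ) ^ j * α ^ n) ^ (l' : ℝ) := Real.rpow_le_rpow_of_exponent_le h9 h5.le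
  have h12 : 0 ≤ (c * (n : ℝ) ^ j * α ^ n) ^ l := by positivity
  exact mul_le_mul (le_abs_self A) h11 h12 (abs_nonneg A)

end Pool.Agent.Results.MP_122e00_nt.ShiftsNearPowers
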