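import Pool.Agent.Results.MP_122e00_nt.FewExceptionalShifts
import Pool.Agent.Q84.NX.Core
import Pool.Agent.Q84.MB.F4

/-!
# Divisor correlations for all shifts near the multiples of the primes of a string

Let `r ≥ 3`. There are polynomials `T_h` (`h ≠ 0`) of degree exactly `2 (r - 1)` with leading coefficient
`𝔖_r(h) / ((r - 1)!) ^ 2` such that for every `0 < δ ≤ 1/2` there is `c > 0`, for all `κ > 0` and `m` there is `c' > 0`
and for every `Z` a number `D` with the following property. For every large `X` there is a set `S` of at most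
`(log X) ^ (49 / 50)` primes, all larger than `Z`, such that for EVERY function `f` with values `1` and `-1` on the
primes at least `X ^ (1 - κ)` integers `n`, `X < n ≤ 3X`, satisfy: the interval `[n, n + D]` contains at least `m`
primes, and for every prime `p` in it

* the Legendre symbol `(p / q)` is `f q` for all odd primes `q ≤ c' log X` outside `S`;
* for ALL integers `k ≥ 1`, ALL integers `h` (positive or negative) with `| |h| - k p | ≤ p ^ c` and ALL integers `x` with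
  `|h| ^ (1 + δ) ≤ x ≤ p ^ (r / (r - 2) - δ)`: `|D_r(x; h) - x T_h(log x)| ≤ x ^ (1 - c)`.

The definitions of `D_r` and `𝔖_r` are those of the starting file `PowerSavingShifts`.
-/

set_option autoImplicit false

open scoped Classical

namespace Pool.Agent.Results.MP_122e00_nt.StringsOfShifts

open Finset Filter Topology Polynomial
open Pool.Agent.Results.MP_122e00_nt.PowerSavingShifts (D 𝔖 Asymp)

/-- the asymptotic formula for all shifts `h` near the multiples of `p` and all `x` with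
`|h| ^ (1 + δ) ≤ x ≤ p ^ (r / (r - 2) - δ)` -/
def Fine (r : ℕ) (T : ℤ → ℝ[X]) (δ c : ℝ) (p : ℕ) : Prop :=
  ∀ (k : ℕ) (h : ℤ), 1 ≤ k → |(|h| : ℝ) - k * p| ≤ (p : ℝ) ^ c → ∀ x : ℕ, (|h| : ℝ) ^ (1 + δ) ≤ x →
    (x : ℝ) ≤ (p : ℝ) ^ ((r : ℝ) / (r - 2) - δ) →
    |D r x h - x * (T h).eval (Real.log x)| ≤ (x : ℝ) ^ (1 - c)

/-- **Theorem.** -/
theorem result (r : ℕ) (hr : 3 ≤ r) : ∃ T : ℤ → ℝ[X],
    (∀ h : ℤ, h ≠ 0 → (T h).natDegree = 2 * r - 2 ∧ (T h).leadingCoeff = 𝔖 r h / ((r - 1).factorial : ℝ) ^ 2) ∧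
    ∀ δ : ℝ, 0 < δ → δ ≤ 1 / 2 → ∃ c : ℝ, 0 < c ∧
    ∀ κ : ℝ, 0 < κ → ∀ m : ℕ, ∃ c' : ℝ, 0 < c' ∧
    ∀ Z : ℕ, ∃ D : ℕ, ∃ X₀ : ℝ, ∀ X : ℝ, X₀ ≤ X →
    ∃ S : Finset ℕ, (∀ q ∈ S, q.Prime ∧ Z < q) ∧ (S.card : ℝ) ≤ (Real.log X) ^ (49 / 50 : ℝ) ∧
    ∀ f : ℕ → ℤ, (∀ q, f q = 1 ∨ f q = -1) →
      X ^ (1 - κ) ≤ (((Icc 1 ⌊3 * X⌋₊).filter fun n : ℕ => X < n ∧
        m ≤ ((Icc n (n + D)).filter Nat.Prime).card ∧
        ∀ p ∈ Icc n (n + D), p.Prime → Fine r T δ c p ∧
          ∀ q : ℕ, q.Prime → q ≠ 2 → (q : ℝ) ≤ c' * Real.log X → q ∉ S → jacobiSym p q = f q).card : ℝ) := by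
  obtain ⟨P, T, -, hT, hexc⟩ := FewExceptionalShifts.result r hr
  refine ⟨T, fun h hh => (hT h hh).2.2, fun δ hδ hδ2 => ?_⟩
  have hr3 : (3 : ℝ) ≤ r := by exact_mod_cast hr
  -- the constants
  obtain ⟨A, hA⟩ : ∃ A, A = (r : ℝ) / (r - 2) - δ := ⟨_, rfl⟩
  have hr2 : (r : ℝ) / (r - 2) ≤ 3 := by
    rw [div_le_iff₀ (by linarith)]
    linarith
  have hr1 : 1 ≤ (r : ℝ) / (r - 2) := by
    rw [le_div_iff₀ (by linarith)]
    linarith
  have hA3 : A ≤ 3 := by rw [hA]; linarith
  have hA0 : 1 / 2 ≤ A := by rw [hA]; linarith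
  obtain ⟨ε, hε⟩ : ∃ ε, ε = δ / 18 := ⟨_, rfl⟩
  have hε0 : 0 < ε := by rw [hε]; positivity
  have h2r : 2 / (r : ℝ) ≤ 2 / 3 := by
    rw [div_le_div_iff₀ (by linarith) (by norm_num)]
    linarith
  have h2r0 : 0 < 2 / (r : ℝ) := by positivity
  obtain ⟨e, he⟩ : ∃ e, e = 1 - 2 / (r : ℝ) + ε := ⟨_, rfl⟩
  have he0 : 0 < e := by rw [he]; linarith
  have he2 : e ≤ 2 := by rw [he]; linarith
  have hAe : A * e ≤ 1 - δ / 6 := by
    have h1 : (r : ℝ) / (r - 2) * (1 - 2 / (r : ℝ)) = 1 := by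
      have h3 : (r : ℝ) - 2 ≠ 0 := by linarith
      have h4 : (r : ℝ) ≠ 0 := by linarith
      field_simp
    have h2 : A * e = (r : ℝ) / (r - 2) * (1 - 2 / (r : ℝ)) - δ * (1 - 2 / (r : ℝ)) + A * ε := by
      rw [hA, he]
      ring
    rw [h2, h1]
    have h3 : δ * (1 / 3) ≤ δ * (1 - 2 / (r : ℝ)) := mul_le_mul_of_nonneg_left (by linarith) hδ.le
    have h4 : A * ε ≤ 3 * ε := mul_le_mul_of_nonneg_right hA3 hε0.le
    rw [hε] at h4
    rw [hε]
    linarith
  obtain ⟨θ, hθ, hθ2⟩ := hexc 1 ε hε0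
  rw [← he] at hθ2
  obtain ⟨η, hη⟩ : ∃ η, η = min θ (δ / 2) := ⟨_, rfl⟩
  have hη0 : 0 < η := by rw [hη]; exact lt_min hθ (by positivity)
  have hηθ : η ≤ θ := by rw [hη]; exact min_le_left _ _
  have hηδ : η ≤ δ / 2 := by rw [hη]; exact min_le_right _ _
  obtain ⟨N₀, hN₀⟩ := hθ2 η hη0 hηθ
  obtain ⟨c, hc⟩ : ∃ c, c = η / 48 := ⟨_, rfl⟩
  have hc0 : 0 < c := by rw [hc]; positivity
  have hc1 : c < 1 / 4 := by rw [hc]; linarith
  refine ⟨c, hc0, fun κ hκ m => ?_⟩
  obtain ⟨μ, hμ⟩ : ∃ μ, μ = min κ (δ / 16) := ⟨_, rfl⟩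
  have hμ0 : 0 < μ := by rw [hμ]; exact lt_min hκ (by positivity)
  have hμ1 : μ ≤ κ := by rw [hμ]; exact min_le_left _ _
  have hμ2 : μ ≤ δ / 16 := by rw [hμ]; exact min_le_right _ _
  obtain ⟨c', hc', hmain⟩ := Pool.Agent.Q84.MB.sym_strings m μ hμ0
  refine ⟨c', hc', fun Z => ?_⟩
  obtain ⟨D', hD⟩ := hmain Z
  -- the size conditions on X
  have hlog : ∀ᶠ X : ℝ in atTop, Real.log (128 * X ^ 3) / Real.log 2 + 1 ≤ X ^ c := by
    have hl : Tendsto (fun X : ℝ => Real.log X / X ^ c) atTop (𝓝 0) :=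
      (isLittleO_log_rpow_atTop hc0).tendsto_div_nhds_zero
    have hl2 : 0 < Real.log 2 := Real.log_pos (by norm_num)
    filter_upwards [hl.eventually_lt_const (show (0 : ℝ) < Real.log 2 / 6 by positivity),
      (tendsto_rpow_atTop hc0).eventually_ge_atTop (2 * (Real.log 128 / Real.log 2 + 1)),
      eventually_ge_atTop (1 : ℝ)] with X h1 h2 h3
    have h0 : (0 : ℝ) < X ^ c := by positivity
    rw [div_lt_iff₀ h0] at h1
    have h5 : 3 * Real.log X / Real.log 2 ≤ X ^ c / 2 := by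
      rw [div_le_iff₀ hl2]
      linarith
    rw [Real.log_mul (by norm_num) (by positivity), add_div, Real.log_pow]
    push_cast
    linarith
  obtain ⟨X₀, hX₀⟩ := eventually_atTop.1 (((hD.and hlog).and ((tendsto_rpow_atTop
    (by positivity : (0 : ℝ) < δ / 16)).eventually_ge_atTop 288)).and
    ((eventually_ge_atTop (2 * (N₀ : ℝ) + 128)).and (((tendsto_rpow_atTop hc0).eventually_ge_atTop 4).and
      ((tendsto_rpow_atTop (by positivity : (0 : ℝ) < η / 16)).eventually_ge_atTop 4))))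
  refine ⟨D', X₀, fun X hX => ?_⟩
  obtain ⟨⟨⟨⟨S, hS1, hS2, hS3⟩, hlX⟩, hXs⟩, hXN, hXc, hXη⟩ := hX₀ X hX
  have hN₀r : (0 : ℝ) ≤ N₀ := Nat.cast_nonneg _
  have hX128 : 128 ≤ X := by linarith
  have hX0 : 0 < X := by linarith
  have hX1 : 1 ≤ X := by linarith
  refine ⟨S, hS1, hS2, fun f hf => ?_⟩
  obtain ⟨V, hV⟩ : ∃ V, V = ⌊(4 * X) ^ c⌋₊ := ⟨_, rfl⟩
  have h4c : X ^ c ≤ (4 * X) ^ c := Real.rpow_le_rpow hX0.le (by linarith) hc0.le
  have hVle : (V : ℝ) ≤ (4 * X) ^ c := by rw [hV]; exact Nat.floor_le (by positivity)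
  obtain ⟨N, hN⟩ : ∃ N, N = ⌊(5 * X) ^ 3⌋₊ := ⟨_, rfl⟩
  have hNle : (N : ℝ) ≤ (5 * X) ^ 3 := by rw [hN]; exact Nat.floor_le (by positivity)
  have hNX : (N : ℝ) < X ^ (2 + 2) := by
    refine hNle.trans_lt ?_
    have e1 : (5 * X) ^ 3 = 125 * X ^ 3 := by ring
    have e2 : X ^ (2 + 2) = X * X ^ 3 := by ring
    rw [e1, e2]
    exact mul_lt_mul_of_pos_right (by linarith) (by positivity)
  -- the exceptional shifts
  obtain ⟨I, hI⟩ : ∃ I : Finset ℕ, I = (range (V + 1)).filter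
    (fun j => N₀ ≤ 2 ^ j ∧ ((2 ^ j : ℕ) : ℝ) ≤ 2 * (4 * X) ^ A) := ⟨_, rfl⟩
  obtain ⟨E, hE⟩ : ∃ E : ℕ → Finset ℤ, E = fun j => (Icc (-((1 * 2 ^ j : ℕ) : ℤ)) ((1 * 2 ^ j : ℕ) : ℤ)).filter
    (fun h : ℤ => h ≠ 0 ∧ ¬ Asymp r (2 ^ j) P T θ η h) := ⟨_, rfl⟩
  obtain ⟨R, hR⟩ : ∃ R : ℕ → Prop, R = fun b => ∃ j ∈ I, ∃ h ∈ E j, h.natAbs = b := ⟨_, rfl⟩
  have hRc : (((range (N + 1)).filter R).card : ℝ) ≤ 2 * (4 * X) ^ c * (4 * (4 * X) ^ (A * e)) := by
    have hsub : (range (N + 1)).filter R ⊆ I.biUnion fun j => (E j).image Int.natAbs := by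
      intro b hb
      rw [mem_filter, hR] at hb
      obtain ⟨-, j, hj, h, hh, hb⟩ := hb
      rw [mem_biUnion]
      exact ⟨j, hj, mem_image.2 ⟨h, hh, hb⟩⟩
    have h1 : ∀ j ∈ I, (((E j).image Int.natAbs).card : ℝ) ≤ 4 * (4 * X) ^ (A * e) := by
      intro j hj
      rw [hI, mem_filter] at hj
      obtain ⟨-, hj1, hj2⟩ := hj
      have h2 : (((E j).image Int.natAbs).card : ℝ) ≤ (E j).card := by exact_mod_cast card_image_le
      refine h2.trans ?_
      rw [hE]
      refine (hN₀ (2 ^ j) hj1).trans ?_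
      calc ((2 ^ j : ℕ) : ℝ) ^ e ≤ (2 * (4 * X) ^ A) ^ e := Real.rpow_le_rpow (Nat.cast_nonneg _) hj2 he0.le
        _ = 2 ^ e * (4 * X) ^ (A * e) := by
            rw [Real.mul_rpow (by norm_num) (by positivity), ← Real.rpow_mul (by positivity)]
        _ ≤ 4 * (4 * X) ^ (A * e) := by
            apply mul_le_mul_of_nonneg_right _ (by positivity)
            calc (2 : ℝ) ^ e ≤ 2 ^ (2 : ℝ) := Real.rpow_le_rpow_of_exponent_le (by norm_num) he2
              _ = 4 := by norm_num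
    calc (((range (N + 1)).filter R).card : ℝ) ≤ ∑ j ∈ I, (((E j).image Int.natAbs).card : ℝ) := by
          have := (card_le_card hsub).trans card_biUnion_le
          exact_mod_cast this
      _ ≤ ∑ _j ∈ I, 4 * (4 * X) ^ (A * e) := sum_le_sum h1
      _ = I.card * (4 * (4 * X) ^ (A * e)) := by rw [sum_const, nsmul_eq_mul]
      _ ≤ 2 * (4 * X) ^ c * (4 * (4 * X) ^ (A * e)) := by
          apply mul_le_mul_of_nonneg_right _ (by positivity)
          have h2 : I.card ≤ V + 1 := by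
            rw [hI]
            refine (card_filter_le _ _).trans ?_
            rw [card_range]
          have h3 : (I.card : ℝ) ≤ (V : ℝ) + 1 := by exact_mod_cast h2
          linarith
  -- the primes with an exceptional shift near a multiple
  have hcore := Pool.Agent.Q84.NX.near_core R 2 N V X hX1 hNX ⌊4 * X⌋₊
  have hP : (((Icc 1 ⌊4 * X⌋₊).filter fun p : ℕ => p.Prime ∧ X < p ∧ ¬ Fine r T δ c p).card : ℝ) ≤ X ^ (1 - μ) := by
    have hsub : ((Icc 1 ⌊4 * X⌋₊).filter fun p : ℕ => p.Prime ∧ X < p ∧ ¬ Fine r T δ c p) ⊆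
        (Icc 1 ⌊4 * X⌋₊).filter fun p : ℕ => p.Prime ∧ X < p ∧
          ∃ n b : ℕ, 1 ≤ n ∧ n ≤ N ∧ p ∣ n ∧ b ≤ N ∧ R b ∧ n ≤ b + V ∧ b ≤ n + V := by
      intro p hp
      rw [mem_filter, mem_Icc] at hp ⊢
      obtain ⟨hp14, hpp, hXp, hg⟩ := hp
      have hp4 : (p : ℝ) ≤ 4 * X := (Nat.le_floor_iff (by linarith)).1 hp14.2
      have hpr0 : (0 : ℝ) < p := by linarith
      have hpr1 : (1 : ℝ) ≤ p := by linarith
      refine ⟨hp14, hpp, hXp, ?_⟩
      unfold Fine at hg
      push Not at hg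
      obtain ⟨k, h, hk1, hM, x, hx1, hx2, hlt⟩ := hg
      rw [← hA] at hx2
      obtain ⟨b, hb⟩ : ∃ b, b = h.natAbs := ⟨_, rfl⟩
      have hbr : (b : ℝ) = |(h : ℝ)| := by
        rw [hb, Nat.cast_natAbs]
        push_cast
        rfl
      rw [← hbr] at hM hx1
      have hpc : (p : ℝ) ^ c ≤ (4 * X) ^ c := Real.rpow_le_rpow hpr0.le hp4 hc0.le
      have hpc2 : (4 * X) ^ c ≤ X / 2 := by
        have h3 : (4 * X) ^ c ≤ (4 * X) ^ (1 / 2 : ℝ) :=
          Real.rpow_le_rpow_of_exponent_le (by linarith) (by linarith)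
        rw [← Real.sqrt_eq_rpow] at h3
        refine h3.trans ?_
        rw [Real.sqrt_le_left (by positivity)]
        have h6 : 128 * X ≤ X * X := mul_le_mul_of_nonneg_right hX128 hX0.le
        have h7 : (X / 2) ^ 2 = X * X / 4 := by ring
        rw [h7]
        linarith
      have habs := abs_le.1 hM
      have hk1r : (1 : ℝ) ≤ k := by exact_mod_cast hk1
      have hpk : (p : ℝ) ≤ k * p := le_mul_of_one_le_left hpr0.le hk1r
      have hb2 : X / 2 ≤ b := by linarith
      have hb1 : (1 : ℝ) ≤ b := by linarith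
      have hh0 : h ≠ 0 := by
        intro h0
        rw [h0] at hb
        rw [hb] at hb1
        norm_num at hb1
      -- the size of x
      have hbx : (b : ℝ) ≤ x := by
        refine le_trans ?_ hx1
        calc (b : ℝ) = (b : ℝ) ^ (1 : ℝ) := (Real.rpow_one _).symm
          _ ≤ (b : ℝ) ^ (1 + δ) := Real.rpow_le_rpow_of_exponent_le hb1 (by linarith)
      have hxr1 : (1 : ℝ) ≤ x := hb1.trans hbx
      have hxr0 : (0 : ℝ) < x := by linarith
      have hx4 : (x : ℝ) ≤ (4 * X) ^ A := hx2.trans (Real.rpow_le_rpow hpr0.le hp4 (by linarith))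
      have h4X3 : (4 * X) ^ A ≤ (4 * X) ^ 3 := by
        rw [← Real.rpow_natCast (4 * X) 3]
        push_cast
        exact Real.rpow_le_rpow_of_exponent_le (by linarith) hA3
      have hx64 : (x : ℝ) ≤ 64 * X ^ 3 := by
        refine hx4.trans (h4X3.trans (le_of_eq ?_))
        ring
      obtain ⟨j, hj⟩ : ∃ j, j = Nat.clog 2 x := ⟨_, rfl⟩
      have hj1 : x ≤ 2 ^ j := by rw [hj]; exact Nat.le_pow_clog (by norm_num) _
      have hx2' : 2 ≤ x := by
        have : (2 : ℝ) ≤ x := by linarith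
        exact_mod_cast this
      have hj0 : 1 ≤ j := by
        by_contra hcon
        have : j = 0 := by omega
        rw [this] at hj1
        omega
      have hj2 : 2 ^ j < 2 * x := by
        have h1 : 2 ^ (Nat.clog 2 x).pred < x := Nat.pow_pred_clog_lt_self (by norm_num) (by omega)
        rw [← hj] at h1
        have h3 : j = j.pred + 1 := by
          rw [Nat.pred_eq_sub_one]
          omega
        rw [h3, pow_succ]
        omega
      have hj1r : (x : ℝ) ≤ ((2 ^ j : ℕ) : ℝ) := by exact_mod_cast hj1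
      have hj2r : ((2 ^ j : ℕ) : ℝ) ≤ 2 * x := by exact_mod_cast hj2.le
      have hjV : j ≤ V := by
        rw [hV]
        apply Nat.le_floor
        have hl2 : 0 < Real.log 2 := Real.log_pos (by norm_num)
        have h5 : (j : ℝ) * Real.log 2 ≤ Real.log (128 * X ^ 3) := by
          have h6 : Real.log (((2 ^ j : ℕ) : ℝ)) = j * Real.log 2 := by
            push_cast
            rw [Real.log_pow]
          rw [← h6]
          apply Real.log_le_log (by positivity)
          linarith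
        have h6 : (j : ℝ) ≤ Real.log (128 * X ^ 3) / Real.log 2 := by
          rw [le_div_iff₀ hl2]
          exact h5
        linarith
      have hN₀x : N₀ ≤ 2 ^ j := by
        have h1 : (N₀ : ℝ) ≤ x := by linarith
        have h2 : N₀ ≤ x := by exact_mod_cast h1
        omega
      -- the failure of the asymptotic formula at the scale `2 ^ j`
      have hnot : ¬ Asymp r (2 ^ j) P T θ η h := by
        intro has
        have h1 := (has x hj1).2 (by
          rw [← hbr]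
          have h2 : (b : ℝ) ≤ (x : ℝ) ^ (1 - η) := by
            have h3 : (b : ℝ) = ((b : ℝ) ^ (1 + δ)) ^ (1 / (1 + δ)) := by
              rw [← Real.rpow_mul (by linarith), mul_one_div_cancel (by linarith), Real.rpow_one]
            rw [h3]
            calc ((b : ℝ) ^ (1 + δ)) ^ (1 / (1 + δ)) ≤ (x : ℝ) ^ (1 / (1 + δ)) :=
                  Real.rpow_le_rpow (by positivity) hx1 (by positivity)
              _ ≤ (x : ℝ) ^ (1 - η) := by
                  apply Real.rpow_le_rpow_of_exponent_le hxr1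
                  rw [div_le_iff₀ (by linarith)]
                  nlinarith
          exact h2.trans (Real.rpow_le_rpow hxr0.le hj1r (by linarith)))
        refine absurd (h1.trans ?_) (not_le.2 hlt)
        calc ((2 ^ j : ℕ) : ℝ) ^ (1 - η / 8) ≤ (2 * x) ^ (1 - η / 8) :=
              Real.rpow_le_rpow (Nat.cast_nonneg _) hj2r (by linarith)
          _ = 2 ^ (1 - η / 8) * (x : ℝ) ^ (1 - η / 8) := Real.mul_rpow (by norm_num) hxr0.le
          _ ≤ (x : ℝ) ^ (η / 16) * (x : ℝ) ^ (1 - η / 8) := by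
              apply mul_le_mul_of_nonneg_right _ (by positivity)
              have h2 : (2 : ℝ) ^ (1 - η / 8) ≤ 2 := by
                calc (2 : ℝ) ^ (1 - η / 8) ≤ 2 ^ (1 : ℝ) :=
                      Real.rpow_le_rpow_of_exponent_le (by norm_num) (by linarith)
                  _ = 2 := Real.rpow_one _
              have h3 : (2 : ℝ) ≤ (x : ℝ) ^ (η / 16) := by
                have h4 : X / 2 ≤ x := hb2.trans hbx
                have h5 : (X / 2) ^ (η / 16) ≤ (x : ℝ) ^ (η / 16) :=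
                  Real.rpow_le_rpow (by linarith) h4 (by positivity)
                refine le_trans ?_ h5
                rw [Real.div_rpow hX0.le (by norm_num), le_div_iff₀ (by positivity)]
                have h6 : (2 : ℝ) ^ (η / 16) ≤ 2 := by
                  calc (2 : ℝ) ^ (η / 16) ≤ 2 ^ (1 : ℝ) :=
                        Real.rpow_le_rpow_of_exponent_le (by norm_num) (by linarith)
                    _ = 2 := Real.rpow_one _
                linarith
              linarith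
          _ = (x : ℝ) ^ (1 - η / 16) := by
              rw [← Real.rpow_add hxr0]
              congr 1
              ring
          _ ≤ (x : ℝ) ^ (1 - c) := Real.rpow_le_rpow_of_exponent_le hxr1 (by rw [hc]; linarith)
      have hbN : b ≤ N := by
        rw [hN]
        refine Nat.le_floor ?_
        refine (hbx.trans (hx4.trans h4X3)).trans ?_
        exact pow_le_pow_left₀ (by linarith) (by linarith) 3
      have hkpN : k * p ≤ N := by
        rw [hN]
        refine Nat.le_floor ?_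
        push_cast
        have h1 : (b : ℝ) ≤ (4 * X) ^ 3 := hbx.trans (hx4.trans h4X3)
        have h2 : (k : ℝ) * p ≤ (4 * X) ^ 3 + X / 2 := by linarith
        refine h2.trans ?_
        have h3 : X ≤ X ^ 3 := by
          calc X = X ^ 1 := (pow_one _).symm
            _ ≤ X ^ 3 := pow_le_pow_right₀ hX1 (by norm_num)
        have e1 : (4 * X) ^ 3 = 64 * X ^ 3 := by ring
        have e2 : (5 * X) ^ 3 = 125 * X ^ 3 := by ring
        rw [e1, e2]
        linarith
      have hMV : |(b : ℝ) - ((k * p : ℕ) : ℝ)| ≤ V := by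
        have h7 : |(b : ℝ) - ((k * p : ℕ) : ℝ)| ≤ (4 * X) ^ c := by
          push_cast
          exact hM.trans hpc
        have h8 : |(b : ℝ) - ((k * p : ℕ) : ℝ)| = ((|(b : ℤ) - ((k * p : ℕ) : ℤ)|.toNat : ℕ) : ℝ) := by
          have h9 : ((|(b : ℤ) - ((k * p : ℕ) : ℤ)|.toNat : ℕ) : ℤ) = |(b : ℤ) - ((k * p : ℕ) : ℤ)| :=
            Int.toNat_of_nonneg (abs_nonneg _)
          have h10 : (((|(b : ℤ) - ((k * p : ℕ) : ℤ)|.toNat : ℕ) : ℤ) : ℝ) =
              ((|(b : ℤ) - ((k * p : ℕ) : ℤ)| : ℤ) : ℝ) := by rw [h9]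
          rw [Int.cast_natCast] at h10
          rw [h10]
          push_cast
          rfl
        rw [h8] at h7 ⊢
        rw [hV]
        exact_mod_cast Nat.le_floor h7
      have hMV' := abs_le.1 hMV
      have hMV1 : k * p ≤ b + V := by
        have : ((k * p : ℕ) : ℝ) ≤ ((b + V : ℕ) : ℝ) := by push_cast at hMV' ⊢; linarith
        exact_mod_cast this
      have hMV2 : b ≤ k * p + V := by
        have : (b : ℝ) ≤ ((k * p + V : ℕ) : ℝ) := by push_cast at hMV' ⊢; linarith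
        exact_mod_cast this
      refine ⟨k * p, b, Nat.mul_pos (by omega) hpp.pos, hkpN, dvd_mul_left _ _, hbN, ?_, hMV1, hMV2⟩
      rw [hR]
      refine ⟨j, ?_, h, ?_, hb.symm⟩
      · rw [hI, mem_filter, mem_range]
        exact ⟨by omega, hN₀x, by linarith⟩
      · rw [hE, mem_filter, mem_Icc]
        have hb2j : b ≤ 1 * 2 ^ j := by
          have : (b : ℝ) ≤ ((2 ^ j : ℕ) : ℝ) := hbx.trans hj1r
          rw [one_mul]
          exact_mod_cast this
        refine ⟨⟨?_, ?_⟩, hh0, hnot⟩ <;> omega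
    have h1 : (((Icc 1 ⌊4 * X⌋₊).filter fun p : ℕ => p.Prime ∧ X < p ∧ ¬ Fine r T δ c p).card : ℝ) ≤
        3 * ((((range (N + 1)).filter R).card : ℝ) * (2 * V + 1)) := by
      have h2 := (card_le_card hsub).trans hcore
      have h3 : (((Icc 1 ⌊4 * X⌋₊).filter fun p : ℕ => p.Prime ∧ X < p ∧ ¬ Fine r T δ c p).card : ℝ) ≤
        (((2 + 1) * (((range (N + 1)).filter R).card * (2 * V + 1)) : ℕ) : ℝ) := by exact_mod_cast h2
      refine h3.trans (le_of_eq ?_)
      push_cast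
      ring
    refine h1.trans ?_
    have h2 : (2 * (V : ℝ) + 1) ≤ 3 * (4 * X) ^ c := by linarith
    obtain ⟨e', he'⟩ : ∃ e', e' = c + c + A * e := ⟨_, rfl⟩
    have he1 : e' ≤ 1 - δ / 8 := by
      rw [he', hc]
      linarith
    calc 3 * ((((range (N + 1)).filter R).card : ℝ) * (2 * V + 1))
        ≤ 3 * ((2 * (4 * X) ^ c * (4 * (4 * X) ^ (A * e))) * (3 * (4 * X) ^ c)) := by
          apply mul_le_mul_of_nonneg_left _ (by norm_num)
          exact mul_le_mul hRc h2 (by positivity) (by positivity)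
      _ = 72 * ((4 * X) ^ c * (4 * X) ^ c * (4 * X) ^ (A * e)) := by ring
      _ = 72 * (4 * X) ^ e' := by
          rw [← Real.rpow_add (by positivity), ← Real.rpow_add (by positivity), he']
      _ ≤ 72 * (4 * X) ^ (1 - δ / 8) := by
          apply mul_le_mul_of_nonneg_left _ (by norm_num)
          exact Real.rpow_le_rpow_of_exponent_le (by linarith) he1
      _ = 72 * (4 ^ (1 - δ / 8) * X ^ (1 - δ / 8)) := by rw [Real.mul_rpow (by norm_num) hX0.le]
      _ ≤ 72 * (4 * X ^ (1 - δ / 8)) := by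
          apply mul_le_mul_of_nonneg_left _ (by norm_num)
          apply mul_le_mul_of_nonneg_right _ (by positivity)
          calc (4 : ℝ) ^ (1 - δ / 8) ≤ 4 ^ (1 : ℝ) :=
                Real.rpow_le_rpow_of_exponent_le (by norm_num) (by linarith)
            _ = 4 := Real.rpow_one _
      _ = 288 * X ^ (1 - δ / 8) := by ring
      _ ≤ X ^ (δ / 16) * X ^ (1 - δ / 8) := mul_le_mul_of_nonneg_right hXs (by positivity)
      _ = X ^ (1 - δ / 16) := by
          rw [← Real.rpow_add hX0]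
          congr 1
          ring
      _ ≤ X ^ (1 - μ) := Real.rpow_le_rpow_of_exponent_le hX1 (by linarith)
  have h1 := hS3 f hf (Fine r T δ c) hP
  have h2 : X ^ (1 - κ) ≤ X ^ (1 - μ) := Real.rpow_le_rpow_of_exponent_le hX1 (by linarith)
  refine h2.trans (h1.trans ?_)
  rw [Nat.cast_le]
  apply card_le_card
  intro n hn
  rw [mem_filter] at hn ⊢
  obtain ⟨h3, h4, h5⟩ := hn
  exact ⟨h3, h4, h5.1, h5.2⟩

end Pool.Agent.Results.MP_122e00_nt.StringsOfShifts
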